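import Pool.Agent.Helper94.ES.Coef
import Pool.Agent.Helper94.ES.DTDefs
import Pool.Agent.Helper43.ES.LF

/-!
# The bounded `k` deterministic statement (task SMALL of MP_7f94de)
-/

open Finset

namespace Pool.Agent.Helper25.ES

open Pool.Agent.Helper94.ES

section Basic
variable {ι : Type*} [DecidableEq ι]

theorem EE_one_eq (v : ι → ℂ) (A : Finset ι) (j : ℕ) :
    EE (fun _ => 1) v A j = ∑ s ∈ A.powersetCard j, ∏ i ∈ s, v i := by
  induction A using Finset.induction_on generalizing j with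
  | empty =>
    rcases j with _ | j
    · simp [EE_empty]
    · rw [EE_empty, Finset.powersetCard_eq_empty.mpr (by simp)]
      simp
  | insert i S hi ih =>
    rcases j with _ | j
    · rw [EE_insert_zero hi, ih]; simp
    · rw [EE_insert_succ hi, ih, ih, Finset.powersetCard_succ_insert hi, Finset.sum_union]
      · rw [Finset.sum_image]
        · have h1 : v i * ∑ s ∈ S.powersetCard j, ∏ a ∈ s, v a
              = ∑ s ∈ S.powersetCard j, ∏ a ∈ insert i s, v a := by
            rw [Finset.mul_sum]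
            refine Finset.sum_congr rfl fun s hs => ?_
            rw [Finset.prod_insert]
            intro h
            exact hi ((Finset.mem_powersetCard.mp hs).1 h)
          rw [h1, one_mul]
        · intro s hs t ht hst
          have hs' : i ∉ s := fun h => hi ((Finset.mem_powersetCard.mp hs).1 h)
          have ht' : i ∉ t := fun h => hi ((Finset.mem_powersetCard.mp ht).1 h)
          rw [← Finset.erase_insert hs', hst, Finset.erase_insert ht']
      · rw [Finset.disjoint_left]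
        intro s hs ht
        obtain ⟨t, _, rfl⟩ := Finset.mem_image.mp ht
        exact hi ((Finset.mem_powersetCard.mp hs).1 (Finset.mem_insert_self i t))

open Classical in
theorem count_bad (P : Finset ι) (n : ℕ) (𝒯 : Finset (Finset ι)) (h𝒯 : 𝒯 ⊆ P.powersetCard n)
    (B : Finset ι) (hB : B ⊆ P) (Bad : Finset ι → Prop)
    (h : ∀ w : Finset ι, Bad w → ∀ a ∈ B, ∀ a' ∈ B, a ∉ w → a' ∉ w → insert a w ∈ 𝒯 →
      insert a' w ∈ 𝒯 → a = a') :
    ∑ A ∈ 𝒯, (B.filter (fun a => ¬ (a ∈ A ∧ ¬ Bad (A.erase a)))).card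
      ≤ B.card * (P.card - 1).choose n + P.card.choose (n - 1) := by
  have h1 : ∀ A ∈ 𝒯, (B.filter (fun a => ¬ (a ∈ A ∧ ¬ Bad (A.erase a)))).card
      ≤ (B.filter (fun a => a ∉ A)).card + (B.filter (fun a => a ∈ A ∧ Bad (A.erase a))).card := by
    intro A _
    rw [← Finset.card_union_of_disjoint]
    · apply Finset.card_le_card
      intro a ha
      simp only [Finset.mem_filter, Finset.mem_union] at ha ⊢
      by_cases haA : a ∈ A
      · right
        refine ⟨ha.1, haA, ?_⟩
        by_contra hb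
        exact ha.2 ⟨haA, hb⟩
      · left; exact ⟨ha.1, haA⟩
    · rw [Finset.disjoint_left]
      intro a ha hb
      exact (Finset.mem_filter.mp ha).2 (Finset.mem_filter.mp hb).2.1
  refine (Finset.sum_le_sum h1).trans ?_
  rw [Finset.sum_add_distrib]
  apply Nat.add_le_add
  · calc ∑ A ∈ 𝒯, (B.filter (fun a => a ∉ A)).card
        ≤ ∑ A ∈ P.powersetCard n, (B.filter (fun a => a ∉ A)).card :=
          Finset.sum_le_sum_of_subset h𝒯
      _ = ∑ a ∈ B, ((P.powersetCard n).filter (fun A => a ∉ A)).card := by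
          simp only [Finset.card_filter]
          rw [Finset.sum_comm]
      _ = ∑ a ∈ B, (P.card - 1).choose n := by
          refine Finset.sum_congr rfl fun a ha => ?_
          have : (P.powersetCard n).filter (fun A => a ∉ A) = (P.erase a).powersetCard n := by
            ext A
            simp only [Finset.mem_filter, Finset.mem_powersetCard, Finset.subset_erase]
            tauto
          rw [this, Finset.card_powersetCard, Finset.card_erase_of_mem (hB ha)]
      _ = B.card * (P.card - 1).choose n := by rw [Finset.sum_const, smul_eq_mul]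
  · rw [← Finset.card_powersetCard, ← Finset.card_sigma]
    apply Finset.card_le_card_of_injOn (fun x : (_ : Finset ι) × ι => x.1.erase x.2)
    · rintro ⟨A, a⟩ hx
      simp only [Finset.coe_sigma, Set.mem_sigma_iff, Finset.mem_coe, Finset.mem_filter] at hx
      obtain ⟨hA, haB, haA, _⟩ := hx
      have hA' := Finset.mem_powersetCard.mp (h𝒯 hA)
      simp only [Finset.mem_coe, Finset.mem_powersetCard]
      refine ⟨(Finset.erase_subset _ _).trans hA'.1, ?_⟩
      rw [Finset.card_erase_of_mem haA, hA'.2]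
    · rintro ⟨A, a⟩ hx ⟨A', a'⟩ hx' heq
      simp only [Finset.coe_sigma, Set.mem_sigma_iff, Finset.mem_coe, Finset.mem_filter] at hx hx'
      obtain ⟨hA, haB, haA, hbad⟩ := hx
      obtain ⟨hA', haB', haA', hbad'⟩ := hx'
      simp only at heq
      have e1 : insert a (A.erase a) = A := Finset.insert_erase haA
      have e2 : insert a' (A.erase a) = A' := by rw [heq]; exact Finset.insert_erase haA'
      have h3 : a = a' := by
        apply h (A.erase a) hbad a haB a' haB' (Finset.notMem_erase a A)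
        · rw [heq]; exact Finset.notMem_erase a' A'
        · rw [e1]; exact hA
        · rw [e2]; exact hA'
      subst h3
      have : A = A' := by rw [← e1, ← e2]
      subst this
      rfl

end Basic

theorem good_contra (v : ℕ → ℂ) (A T : Finset ℕ) (hTA : T ⊆ A) (k : ℕ) (hk : 1 ≤ k)
    (hT : T.card = k) (θ : ℝ) (hθ0 : 0 < θ)
    (hsep : ∀ i ∈ T, ∀ j ∈ T, i ≠ j → θ ≤ ‖v i - v j‖) (t : ℝ)
    (hgood : ∀ a ∈ T, ‖EE (fun _ => 1) v (A.erase a) (k - 1)‖ ≤ t) :
    1 ≤ k * (t / θ ^ (k - 1)) := by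
  have hbrn : ∀ i ∈ T, ∀ j ∈ T, i ≠ j → θ ≤ ‖br (fun _ => 1) v i j‖ := by
    intro i hi j hj hij
    unfold br
    rw [one_mul, one_mul, ← norm_neg, neg_sub]
    exact hsep i hi j hj hij
  have hbr : ∀ i ∈ T, ∀ j ∈ T, i ≠ j → br (fun _ => 1) v i j ≠ 0 := by
    intro i hi j hj hij h0
    have := hbrn i hi j hj hij
    rw [h0, norm_zero] at this
    linarith
  have h := Pool.Agent.Helper43.ES.lagrange_EE (fun _ => (1:ℂ)) v A T hTA (by simp) hbr (k - 1) (k - 1)
    (by omega) le_rfl (k - 1)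
  rw [if_pos le_rfl, Nat.sub_self, EE_zero, Finset.prod_const_one] at h
  have h2 : (1:ℝ) ≤ ∑ c ∈ T, t / θ ^ (k - 1) := by
    calc (1:ℝ) = ‖(1:ℂ)‖ := by simp
      _ = _ := by rw [← h]
      _ ≤ _ := norm_sum_le _ _
      _ ≤ ∑ c ∈ T, t / θ ^ (k - 1) := by
          refine Finset.sum_le_sum fun c hc => ?_
          have hcard : (T.erase c).card = k - 1 := by rw [Finset.card_erase_of_mem hc, hT]
          rw [norm_mul, norm_div, norm_prod]
          have hp : θ ^ (k - 1) ≤ ∏ c' ∈ T.erase c, ‖br (fun _ => 1) v c c'‖ := by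
            rw [← hcard, ← Finset.prod_const]
            apply Finset.prod_le_prod
            · intro _ _; exact hθ0.le
            · intro c' hc'
              exact hbrn c hc c' (Finset.mem_of_mem_erase hc') (Finset.ne_of_mem_erase hc').symm
          have hθk : 0 < θ ^ (k - 1) := pow_pos hθ0 _
          have h3 := hgood c hc
          simp only [pow_zero, one_pow, mul_one, norm_one]
          rw [div_mul_eq_mul_div, one_mul]
          exact div_le_div₀ ((norm_nonneg _).trans h3) h3 hθk hp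
  rw [Finset.sum_const, hT, nsmul_eq_mul] at h2
  exact h2

end Pool.Agent.Helper25.ES

namespace Pool.Agent.Helper94.ES

open Pool.Agent.Helper25.ES

theorem smallDT : SmallDT := by
  intro ε hε c hc K1
  refine ⟨c / 8, by positivity, 2 * K1 + ⌈64 / c ^ 2⌉₊ + 1, ?_⟩
  set K : ℕ := 2 * K1 + ⌈64 / c ^ 2⌉₊ + 1 with hK
  intro θ hθ
  set θ' : ℝ := min θ 1 with hθ'
  have hθ'0 : 0 < θ' := lt_min hθ one_pos
  have hθ'1 : θ' ≤ 1 := min_le_right _ _
  have hθ'2 : θ' ≤ θ := min_le_left _ _
  -- choose `n0`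
  have hlim : Filter.Tendsto (fun n : ℕ => (K1 : ℝ) * ((2 * Real.exp (-(ε * n)) / θ') / θ' ^ K1))
      Filter.atTop (nhds 0) := by
    have h1 : Filter.Tendsto (fun n : ℕ => Real.exp (-(ε * n))) Filter.atTop (nhds 0) := by
      apply Real.tendsto_exp_neg_atTop_nhds_zero.comp
      exact Filter.Tendsto.const_mul_atTop hε tendsto_natCast_atTop_atTop
    have h2 := ((h1.const_mul 2).div_const θ').div_const (θ' ^ K1)
    have h3 := h2.const_mul (K1 : ℝ)
    simpa using h3
  obtain ⟨n1, hn1⟩ := Filter.eventually_atTop.mp (hlim.eventually_lt_const one_pos)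
  refine ⟨max n1 (⌈8 / c⌉₊ + 1), ?_⟩
  intro n k N hn0 hk1 hkK hN v hB
  obtain ⟨B, hBN, hBK, hBsep⟩ := hB
  have hnn1 : n1 ≤ n := (le_max_left _ _).trans hn0
  have hnc : ⌈8 / c⌉₊ + 1 ≤ n := (le_max_right _ _).trans hn0
  have hn8 : 8 / c ≤ n := by
    have h1 : 8 / c ≤ (⌈8 / c⌉₊ : ℝ) := Nat.le_ceil _
    have h2 : (⌈8 / c⌉₊ : ℝ) ≤ n := by exact_mod_cast (by omega : ⌈8 / c⌉₊ ≤ n)
    linarith
  have hn1' : 1 ≤ n := by omega
  have hsmall := hn1 n hnn1
  by_contra hcon
  push Not at hcon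
  set τ : ℝ := Real.exp (-(ε * n)) with hτ
  have hτ0 : 0 < τ := Real.exp_pos _
  set 𝒯 := (((range N).powersetCard n).filter (fun A => ‖∑ s ∈ A.powersetCard k, ∏ i ∈ s, v i‖ ≤ τ))
    with h𝒯
  have hEE : ∀ A ∈ 𝒯, ‖EE (fun _ => 1) v A k‖ ≤ τ := by
    intro A hA
    rw [EE_one_eq]
    exact (Finset.mem_filter.mp hA).2
  set t : ℝ := 2 * τ / θ' with ht
  have ht0 : 0 < t := by positivity
  let Bad : Finset ℕ → Prop := fun w => t < ‖EE (fun _ => 1) v w (k - 1)‖
  have hcount := count_bad (range N) n 𝒯 (Finset.filter_subset _ _) B hBN Bad (by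
    intro w hw a ha a' ha' haw ha'w h1 h2
    by_contra hne
    have e1 := hEE _ h1
    have e2 := hEE _ h2
    obtain ⟨j, rfl⟩ : ∃ j, k = j + 1 := ⟨k - 1, by omega⟩
    rw [EE_insert_succ haw] at e1
    rw [EE_insert_succ ha'w] at e2
    have e3 : ‖(v a - v a') * EE (fun _ => 1) v w j‖ ≤ 2 * τ := by
      have : (v a - v a') * EE (fun _ => 1) v w j
          = (1 * EE (fun _ => 1) v w (j + 1) + v a * EE (fun _ => 1) v w j)
            - (1 * EE (fun _ => 1) v w (j + 1) + v a' * EE (fun _ => 1) v w j) := by ring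
      rw [this]
      refine (norm_sub_le _ _).trans ?_
      linarith
    rw [norm_mul] at e3
    have e4 := hBsep a ha a' ha' hne
    have e5 : t < ‖EE (fun _ => 1) v w j‖ := hw
    have e6 : θ' * t < ‖v a - v a'‖ * ‖EE (fun _ => 1) v w j‖ :=
      mul_lt_mul' (hθ'2.trans e4) e5 ht0.le (hθ.trans_le e4)
    have e7 : θ' * t = 2 * τ := by rw [ht]; field_simp
    linarith)
  rw [Finset.card_range] at hcount
  -- each `A ∈ 𝒯` has few good nodes
  have hX : ∀ A ∈ 𝒯, K ≤ 2 * (B.filter (fun a => ¬ (a ∈ A ∧ ¬ Bad (A.erase a)))).card := by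
    intro A hA
    have hsum := Finset.card_filter_add_card_filter_not (s := B) (fun a => (a ∈ A ∧ ¬ Bad (A.erase a)))
    have hgood : (B.filter (fun a => (a ∈ A ∧ ¬ Bad (A.erase a)))).card < k := by
      by_contra hge
      push Not at hge
      obtain ⟨T, hT, hTk⟩ := Finset.exists_subset_card_eq hge
      have hTB : ∀ a ∈ T, a ∈ B ∧ a ∈ A ∧ ¬ Bad (A.erase a) := fun a ha => by
        have := Finset.mem_filter.mp (hT ha)
        exact ⟨this.1, this.2⟩
      have hc1 := good_contra v A T (fun a ha => (hTB a ha).2.1) k hk1 hTk θ' hθ'0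
        (fun i hi j hj hij => hθ'2.trans (hBsep i (hTB i hi).1 j (hTB j hj).1 hij)) t
        (fun a ha => not_lt.mp (hTB a ha).2.2)
      have hc2 : (k:ℝ) * (t / θ' ^ (k - 1)) ≤ K1 * (t / θ' ^ K1) := by
        have h1 : θ' ^ K1 ≤ θ' ^ (k - 1) :=
          pow_le_pow_of_le_one hθ'0.le hθ'1 (by omega)
        have h2 : 0 < θ' ^ K1 := pow_pos hθ'0 _
        have h3 : (k:ℝ) ≤ K1 := by exact_mod_cast hkK
        gcongr
      linarith
    omega
  have hsumX : 𝒯.card * K ≤ 2 * (B.card * (N - 1).choose n + N.choose (n - 1)) := by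
    calc 𝒯.card * K = ∑ A ∈ 𝒯, K := by rw [Finset.sum_const, smul_eq_mul]
      _ ≤ ∑ A ∈ 𝒯, 2 * (B.filter (fun a => ¬ (a ∈ A ∧ ¬ Bad (A.erase a)))).card :=
          Finset.sum_le_sum hX
      _ = 2 * ∑ A ∈ 𝒯, (B.filter (fun a => ¬ (a ∈ A ∧ ¬ Bad (A.erase a)))).card := by
          rw [Finset.mul_sum]
      _ ≤ _ := Nat.mul_le_mul_left _ (by convert hcount using 4)
  rw [hBK] at hsumX
  -- binomials
  set d : ℕ := ⌈c / 8 * n⌉₊ with hd
  have hd1 : c / 8 * n ≤ d := Nat.le_ceil _
  have hd2 : (d:ℝ) < c / 8 * n + 1 := Nat.ceil_lt_add_one (by positivity)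
  have hcn : 1 ≤ c / 8 * n := by
    rw [div_le_iff₀ hc] at hn8
    linarith
  have hNpos : 1 ≤ N := by omega
  have hb1 : ((N - 1).choose n : ℝ) ≤ 2 * (c / 8) * (N.choose n : ℝ) := by
    have h1 := Nat.choose_mul_succ_eq (N - 1) n
    have h2 : N - 1 + 1 = N := by omega
    have h2' : N - n = d := by omega
    rw [h2, h2'] at h1
    have h3 : ((N - 1).choose n : ℝ) * N = (N.choose n : ℝ) * d := by exact_mod_cast h1
    have h4 : (d:ℝ) ≤ 2 * (c / 8) * N := by
      have : (N:ℝ) = n + d := by rw [hN]; push_cast; ring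
      rw [this]
      nlinarith
    have hN0 : (0:ℝ) < N := by exact_mod_cast hNpos
    have h5 : (N.choose n : ℝ) * d ≤ (N.choose n : ℝ) * (2 * (c / 8) * N) :=
      mul_le_mul_of_nonneg_left h4 (by positivity)
    have h6 : ((N - 1).choose n : ℝ) * N ≤ (2 * (c / 8) * (N.choose n : ℝ)) * N := by
      rw [h3]; linarith
    exact le_of_mul_le_mul_right h6 hN0
  have hb2 : (N.choose (n - 1) : ℝ) * (c / 8) ≤ (N.choose n : ℝ) := by
    have h1 := Nat.choose_succ_right_eq N (n - 1)
    have h2 : n - 1 + 1 = n := by omega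
    have h2' : N - (n - 1) = d + 1 := by omega
    rw [h2, h2'] at h1
    have h3 : (N.choose n : ℝ) * n = (N.choose (n - 1) : ℝ) * (d + 1) := by exact_mod_cast h1
    have hn0' : (0:ℝ) < n := by exact_mod_cast hn1'
    have h4 : (N.choose (n - 1) : ℝ) * (c / 8 * n) ≤ (N.choose (n - 1) : ℝ) * (d + 1) :=
      mul_le_mul_of_nonneg_left (by linarith) (by positivity)
    have h5 : ((N.choose (n - 1) : ℝ) * (c / 8)) * n ≤ (N.choose n : ℝ) * n := by
      rw [h3]; linarith
    exact le_of_mul_le_mul_right h5 hn0'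
  have hpos : (0:ℝ) < (N.choose n : ℝ) := by
    exact_mod_cast Nat.choose_pos (by omega)
  have hreal : (𝒯.card : ℝ) * K ≤ 2 * (K * ((N - 1).choose n : ℝ) + (N.choose (n - 1) : ℝ)) := by
    exact_mod_cast hsumX
  have hKpos : (0:ℝ) < K := by rw [hK]; positivity
  have hKbig : 64 / c ^ 2 < K := by
    have h1 : 64 / c ^ 2 ≤ (⌈64 / c ^ 2⌉₊ : ℝ) := Nat.le_ceil _
    rw [hK]; push_cast
    have : (0:ℝ) ≤ K1 := by positivity
    linarith
  have hA1 : c * (N.choose n : ℝ) * K < (𝒯.card : ℝ) * K := mul_lt_mul_of_pos_right hcon hKpos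
  have hA2 : (K:ℝ) * ((N - 1).choose n : ℝ) ≤ K * (2 * (c / 8) * (N.choose n : ℝ)) :=
    mul_le_mul_of_nonneg_left hb1 hKpos.le
  -- combine
  have hA3 : c * (N.choose n : ℝ) * K * (c / 8)
      < 2 * (K * (2 * (c / 8) * (N.choose n : ℝ))) * (c / 8) + 2 * (N.choose n : ℝ) := by
    have h1 : c * (N.choose n : ℝ) * K
        < 2 * (K * (2 * (c / 8) * (N.choose n : ℝ)) + (N.choose (n - 1) : ℝ)) := by linarith
    have h2 := mul_lt_mul_of_pos_right h1 (show (0:ℝ) < c / 8 by positivity)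
    nlinarith
  have hA4 : c ^ 2 * K < 64 := by
    have h1 : (N.choose n : ℝ) * (c ^ 2 * K) < (N.choose n : ℝ) * 64 := by nlinarith
    exact lt_of_mul_lt_mul_left h1 hpos.le
  rw [div_lt_iff₀ (by positivity)] at hKbig
  linarith

end Pool.Agent.Helper94.ES
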